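import Pool.Agent.helper99.ZR.Spec

/-!
# Project zr, row DI1: discretisation
-/

set_option autoImplicit false
set_option linter.unusedVariables false

namespace Pool.Agent.ZR

open Finset
open Pool.Agent.helper32.Cant
open Pool.Agent.GA (nrm chi ch St sg flp Psi rc ph pot rpot far nc gf ncs gfs good mj om pick pat et kap mult)
open scoped ENNReal

noncomputable section

/-- the cost of a finite cover bounds the content -/
theorem DI1_cont (C₀ : ℝ) (E : Set ℝ) (A : Finset (ℕ × ℕ))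
    (hA : ∀ s ∈ E, ∃ c ∈ A, ⌊(3 : ℝ) ^ c.1 * s⌋ = (c.2 : ℤ)) :
    cont (psE C₀) E ≤ ENNReal.ofReal (∑ s ∈ A, psi C₀ s.1) := by
  classical
  set f : ℕ × ℕ → ℕ × ℤ := fun c => (c.1, (c.2 : ℤ)) with hf
  have hinj : Function.Injective f := by
    intro x y hxy
    simp only [hf, Prod.mk.injEq, Nat.cast_inj] at hxy
    exact Prod.ext hxy.1 hxy.2
  have hcov : Cov ((A.image f : Finset (ℕ × ℤ)) : Set (ℕ × ℤ)) E := by
    intro s hs
    obtain ⟨c, hc, hc2⟩ := hA s hs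
    exact ⟨f c, mem_coe.2 (mem_image_of_mem f hc), hc2⟩
  have h1 : cont (psE C₀) E ≤ cst (psE C₀) ((A.image f : Finset (ℕ × ℤ)) : Set (ℕ × ℤ)) := by
    unfold cont
    exact iInf_le_of_le ((A.image f : Finset (ℕ × ℤ)) : Set (ℕ × ℤ)) (iInf_le_of_le hcov le_rfl)
  refine h1.trans (le_of_eq ?_)
  have h2 : cst (psE C₀) ((A.image f : Finset (ℕ × ℤ)) : Set (ℕ × ℤ)) = ∑ c ∈ A.image f, psE C₀ c.1 := by
    unfold cst
    exact Finset.tsum_subtype' (A.image f) (fun c : ℕ × ℤ => psE C₀ c.1)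
  have h3 : ∀ s ∈ A, 0 ≤ psi C₀ s.1 := fun s _ => (Real.exp_pos _).le
  rw [h2, sum_image (fun x _ y _ h => hinj h), ENNReal.ofReal_sum_of_nonneg h3]
  rfl

/-- the normalised mass distribution for one set -/
theorem DI1_mass (hFRO : FRO_stmt) (C₀ : ℝ) (E : Set ℝ) (hE : ∀ s ∈ E, 0 ≤ s ∧ s < 1) (s₀ : ℝ) (hs₀ : 0 < s₀)
    (h : ENNReal.ofReal s₀ < cont (psE C₀) E) (n : ℕ) :
    ∃ b : ℕ → ℝ, (∀ q, 0 ≤ b q) ∧ (∀ q, 0 < b q → q < 3 ^ n ∧ ∃ s ∈ E, ⌊(3 : ℝ) ^ n * s⌋₊ = q) ∧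
      (∑ q ∈ range (3 ^ n), b q = 1) ∧
      (∀ i ≤ n, ∀ c, ∑ q ∈ range (3 ^ n) with q / 3 ^ (n - i) = c, b q ≤ psi C₀ i / s₀) := by
  classical
  set Q : Finset ℕ := (range (3 ^ n)).filter (fun q => ∃ s ∈ E, ⌊(3 : ℝ) ^ n * s⌋₊ = q) with hQ
  obtain ⟨a, A, ha0, haE, hcell, hAn, hAc, hAs⟩ := hFRO n (psi C₀) (fun i => Real.exp_pos _) Q
    (fun q hq => mem_range.1 (mem_filter.1 hq).1)
  set σ : ℝ := ∑ q ∈ Q, a q with hσ
  -- the cells of `A` cover `E`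
  have hcov : ∀ s ∈ E, ∃ c ∈ A, ⌊(3 : ℝ) ^ c.1 * s⌋ = (c.2 : ℤ) := by
    intro s hs
    obtain ⟨h0, h1⟩ := hE s hs
    have h3 : (0 : ℝ) < 3 ^ n := by positivity
    have hqlt : ⌊(3 : ℝ) ^ n * s⌋₊ < 3 ^ n := by
      rw [Nat.floor_lt (by positivity)]
      push_cast
      nlinarith
    obtain ⟨c, hc, hc2⟩ := hAc _ (mem_filter.2 ⟨mem_range.2 hqlt, s, hs, rfl⟩)
    refine ⟨c, hc, ?_⟩
    have hcn := hAn c hc
    have h4 : (3 : ℝ) ^ c.1 * s = ((3 : ℝ) ^ n * s) / ((3 ^ (n - c.1) : ℕ) : ℝ) := by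
      push_cast
      rw [eq_div_iff (by positivity)]
      have : (3 : ℝ) ^ n = 3 ^ c.1 * 3 ^ (n - c.1) := by rw [← pow_add]; congr 1; omega
      rw [this]
      ring
    have h5 : ⌊(3 : ℝ) ^ c.1 * s⌋₊ = c.2 := by
      rw [h4, Nat.floor_div_natCast]
      exact hc2
    rw [← h5]
    exact (Int.natCast_floor_eq_floor (by positivity)).symm
  have hσs : s₀ < σ := by
    have h1 := h.trans_le (DI1_cont C₀ E A hcov)
    have h2 : s₀ < ∑ s ∈ A, psi C₀ s.1 := by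
      by_contra hh
      exact absurd h1 (not_lt.2 (ENNReal.ofReal_le_ofReal (not_lt.1 hh)))
    linarith
  have hσ0 : 0 < σ := hs₀.trans hσs
  have hQsub : Q ⊆ range (3 ^ n) := filter_subset _ _
  refine ⟨fun q => a q / σ, fun q => div_nonneg (ha0 q) hσ0.le, ?_, ?_, ?_⟩
  · intro q hq
    have h1 : q ∈ Q := by
      by_contra hh
      have h0 : a q / σ = 0 := by rw [haE q hh, zero_div]
      exact hq.ne' h0
    obtain ⟨h2, h3⟩ := mem_filter.1 h1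
    exact ⟨mem_range.1 h2, h3⟩
  · rw [← sum_div]
    have h1 : ∑ q ∈ range (3 ^ n), a q = σ :=
      (sum_subset hQsub (fun q _ hq => haE q hq)).symm
    rw [h1, div_self hσ0.ne']
  · intro i hi c
    rw [← sum_div]
    have h1 : ∑ q ∈ range (3 ^ n) with q / 3 ^ (n - i) = c, a q = ∑ q ∈ Q with q / 3 ^ (n - i) = c, a q := by
      refine (sum_subset (filter_subset_filter _ hQsub) (fun q hq1 hq2 => haE q fun hq3 => hq2 ?_)).symm
      exact mem_filter.2 ⟨hq3, (mem_filter.1 hq1).2⟩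
    rw [h1]
    have h2 := hcell i hi c
    have h3 : 0 < psi C₀ i := Real.exp_pos _
    exact div_le_div₀ h3.le h2 hs₀ hσs.le

/-- three cells cover a window -/
theorem DI1_win (b : ℕ → ℝ) (hb : ∀ q, 0 ≤ b q) (N L : ℕ) (hL : 0 < L) (ψ : ℝ) (hψ : 0 ≤ ψ)
    (h : ∀ c, ∑ q ∈ range N with q / L = c, b q ≤ ψ) (u : ℤ) :
    ∑ q ∈ range N, b q * ind (|(q : ℤ) - u| ≤ L) ≤ 3 * ψ := by
  classical
  have hg : ∀ c : ℤ, ∑ q ∈ range N with ((q / L : ℕ) : ℤ) = c, b q ≤ ψ := by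
    intro c
    rcases le_or_gt 0 c with hc | hc
    · obtain ⟨d, rfl⟩ := Int.eq_ofNat_of_zero_le hc
      have h1 : (range N).filter (fun q => ((q / L : ℕ) : ℤ) = (d : ℤ)) = (range N).filter (fun q => q / L = d) := by
        refine filter_congr fun q _ => ?_
        exact Nat.cast_inj
      rw [h1]
      exact h d
    · have h1 : (range N).filter (fun q => ((q / L : ℕ) : ℤ) = c) = ∅ := by
        refine filter_eq_empty_iff.2 fun q _ hq => ?_
        have : (0 : ℤ) ≤ ((q / L : ℕ) : ℤ) := Int.natCast_nonneg _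
        omega
      rw [h1, sum_empty]
      exact hψ
  set c0 : ℤ := u / L with hc0
  have hLZ : (0 : ℤ) < L := by exact_mod_cast hL
  have hpt : ∀ q ∈ range N, b q * ind (|(q : ℤ) - u| ≤ L) ≤
      (if ((q / L : ℕ) : ℤ) = c0 - 1 then b q else 0) + (if ((q / L : ℕ) : ℤ) = c0 then b q else 0)
        + (if ((q / L : ℕ) : ℤ) = c0 + 1 then b q else 0) := by
    intro q _
    have hb0 := hb q
    have hp1 : 0 ≤ (if ((q / L : ℕ) : ℤ) = c0 - 1 then b q else 0) := by split_ifs <;> simp [hb0]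
    have hp2 : 0 ≤ (if ((q / L : ℕ) : ℤ) = c0 then b q else 0) := by split_ifs <;> simp [hb0]
    have hp3 : 0 ≤ (if ((q / L : ℕ) : ℤ) = c0 + 1 then b q else 0) := by split_ifs <;> simp [hb0]
    by_cases hw : |(q : ℤ) - u| ≤ L
    · have h1 : ind (|(q : ℤ) - u| ≤ L) = 1 := by
        unfold ind
        rw [if_pos hw]
      rw [h1, mul_one]
      obtain ⟨h2, h3⟩ := abs_le.1 hw
      have h4 : ((q / L : ℕ) : ℤ) = (q : ℤ) / L := by push_cast; rfl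
      have h5 : c0 - 1 ≤ (q : ℤ) / L := by
        have h6 : (u + (-1) * L) / L = u / L + (-1) := Int.add_mul_ediv_right _ _ hLZ.ne'
        have h7 : (u + (-1) * L) / L ≤ (q : ℤ) / L := Int.ediv_le_ediv hLZ (by linarith)
        rw [h6] at h7
        linarith
      have h8 : (q : ℤ) / L ≤ c0 + 1 := by
        have h6 : (u + 1 * L) / L = u / L + 1 := Int.add_mul_ediv_right _ _ hLZ.ne'
        have h7 : (q : ℤ) / L ≤ (u + 1 * L) / L := Int.ediv_le_ediv hLZ (by linarith)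
        rw [h6] at h7
        linarith
      have h9 : ((q / L : ℕ) : ℤ) = c0 - 1 ∨ ((q / L : ℕ) : ℤ) = c0 ∨ ((q / L : ℕ) : ℤ) = c0 + 1 := by
        rw [h4]
        omega
      rcases h9 with h9 | h9 | h9
      · rw [if_pos h9]
        linarith
      · rw [if_pos h9]
        linarith
      · rw [if_pos h9]
        linarith
    · have h1 : ind (|(q : ℤ) - u| ≤ L) = 0 := by
        unfold ind
        rw [if_neg hw]
      rw [h1, mul_zero]
      linarith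
  refine (sum_le_sum hpt).trans ?_
  rw [sum_add_distrib, sum_add_distrib, ← sum_filter, ← sum_filter, ← sum_filter]
  have h1 := hg (c0 - 1)
  have h2 := hg c0
  have h3 := hg (c0 + 1)
  linarith

theorem DI1 (hFRO : FRO_stmt) : DI1_stmt := by
  intro C₀ hC₀ U S o lam δ s₀ v hlam hs₀ hv hS hvol hcont n
  classical
  have hN : (0 : ℝ) < 3 ^ n := by positivity
  -- the cell of `x`
  set cell : ℝ → ℕ := fun x => ⌊(3 : ℝ) ^ n * ((x - o) / lam)⌋₊ with hcelldef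
  have hcl : ∀ x ∈ S, cell x < 3 ^ n ∧ o + lam * ((cell x : ℝ) / 3 ^ n) ≤ x ∧
      x ≤ o + lam * ((cell x : ℝ) / 3 ^ n) + lam / 3 ^ n := by
    intro x hx
    obtain ⟨h1, h2⟩ := hS x hx
    have h3 : 0 ≤ (x - o) / lam := div_nonneg (by linarith) hlam.le
    have h4 : (x - o) / lam < 1 := by
      rw [div_lt_one hlam]
      linarith
    have h5 : 0 ≤ (3 : ℝ) ^ n * ((x - o) / lam) := by positivity
    have h6 : (cell x : ℝ) ≤ (3 : ℝ) ^ n * ((x - o) / lam) := Nat.floor_le h5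
    have h7 : (3 : ℝ) ^ n * ((x - o) / lam) < cell x + 1 := Nat.lt_floor_add_one _
    refine ⟨?_, ?_, ?_⟩
    · rw [hcelldef]
      simp only
      rw [Nat.floor_lt h5]
      push_cast
      nlinarith
    · have h8 : (cell x : ℝ) / 3 ^ n ≤ (x - o) / lam := by
        rw [div_le_iff₀ hN]
        linarith
      have h9 : lam * ((cell x : ℝ) / 3 ^ n) ≤ lam * ((x - o) / lam) := mul_le_mul_of_nonneg_left h8 hlam.le
      rw [mul_div_cancel₀ _ hlam.ne'] at h9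
      linarith
    · have h8 : (x - o) / lam ≤ ((cell x : ℝ) + 1) / 3 ^ n := by
        rw [le_div_iff₀ hN]
        linarith
      have h9 : lam * ((x - o) / lam) ≤ lam * (((cell x : ℝ) + 1) / 3 ^ n) := mul_le_mul_of_nonneg_left h8 hlam.le
      rw [mul_div_cancel₀ _ hlam.ne'] at h9
      have h10 : lam * (((cell x : ℝ) + 1) / 3 ^ n) = lam * ((cell x : ℝ) / 3 ^ n) + lam / 3 ^ n := by ring
      linarith
  set Cl : Finset ℕ := (range (3 ^ n)).filter (fun x' => ∃ x ∈ S, cell x = x') with hCl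
  have hpsi : ∀ i, 0 < psi C₀ i := fun i => Real.exp_pos _
  -- the masses
  have hdat : ∀ x' : ℕ, ∃ b : ℕ → ℝ, (∀ q, 0 ≤ b q) ∧
      (∀ q, 0 < b q → x' ∈ Cl ∧ q < 3 ^ n ∧ ∃ x ∈ S, cell x = x' ∧ ∃ s ∈ Es U lam δ x, ⌊(3 : ℝ) ^ n * s⌋₊ = q) ∧
      (x' ∈ Cl → ∑ q ∈ range (3 ^ n), b q = 1) ∧
      (∀ i ≤ n, ∀ c, ∑ q ∈ range (3 ^ n) with q / 3 ^ (n - i) = c, b q ≤ psi C₀ i / s₀) := by
    intro x'
    by_cases hx' : x' ∈ Cl
    · obtain ⟨-, x, hx, hxx⟩ := mem_filter.1 hx'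
      obtain ⟨b, h1, h2, h3, h4⟩ := DI1_mass hFRO C₀ (Es U lam δ x) (fun s hs => ⟨hs.1, hs.2.1⟩) s₀ hs₀ (hcont x hx) n
      refine ⟨b, h1, fun q hq => ?_, fun _ => h3, h4⟩
      obtain ⟨h5, s, h6, h7⟩ := h2 q hq
      exact ⟨hx', h5, x, hx, hxx, s, h6, h7⟩
    · refine ⟨fun _ => 0, fun _ => le_refl _, fun q hq => absurd hq (lt_irrefl _), fun h => absurd h hx', fun i _ c => ?_⟩
      rw [sum_const_zero]
      exact (div_pos (hpsi i) hs₀).le
  choose b hb0 hbp hb1 hbc using hdat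
  set F : Finset (ℕ × ℕ) := (range (3 ^ n) ×ˢ range (3 ^ n)).filter (fun z => 0 < b z.1 z.2) with hF
  have hFm : ∀ z : F, z.1.1 < 3 ^ n ∧ z.1.2 < 3 ^ n ∧ 0 < b z.1.1 z.1.2 := by
    intro z
    obtain ⟨h1, h2⟩ := mem_filter.1 z.2
    obtain ⟨h3, h4⟩ := mem_product.1 h1
    exact ⟨mem_range.1 h3, mem_range.1 h4, h2⟩
  let c : Fam n F :=
    { ctr := fun z => z.1.1
      R := fun z => 3 ^ n + z.1.2
      a := fun z => b z.1.1 z.1.2
      hc := fun z => (hFm z).1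
      lo := fun z => Nat.le_add_right _ _
      hi := fun z => by have := (hFm z).2.1; omega
      pos := fun z => (hFm z).2.2 }
  refine ⟨F, inferInstance, c, ?_, ?_, ?_⟩
  · -- total mass
    have hWt : (Cl.card : ℝ) ≤ Wt c := by
      have h1 : Wt c = ∑ z ∈ F, b z.1 z.2 := sum_coe_sort F (fun z => b z.1 z.2)
      have h2 : ∑ z ∈ F, b z.1 z.2 = ∑ z ∈ range (3 ^ n) ×ˢ range (3 ^ n), b z.1 z.2 := by
        refine sum_subset (filter_subset _ _) fun z hz1 hz2 => ?_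
        by_contra hh
        exact hz2 (mem_filter.2 ⟨hz1, lt_of_le_of_ne (hb0 _ _) (Ne.symm hh)⟩)
      have h3 : ∑ z ∈ range (3 ^ n) ×ˢ range (3 ^ n), b z.1 z.2 = ∑ x' ∈ range (3 ^ n), ∑ q ∈ range (3 ^ n), b x' q :=
        sum_product _ _ _
      have h4 : ∑ x' ∈ Cl, ∑ q ∈ range (3 ^ n), b x' q ≤ ∑ x' ∈ range (3 ^ n), ∑ q ∈ range (3 ^ n), b x' q :=
        sum_le_sum_of_subset_of_nonneg (filter_subset _ _) fun x' _ _ => sum_nonneg fun q _ => hb0 x' q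
      have h5 : ∑ x' ∈ Cl, ∑ q ∈ range (3 ^ n), b x' q = Cl.card := by
        rw [sum_congr rfl (fun x' hx' => hb1 x' hx')]
        simp
      rw [h1, h2, h3, ← h5]
      exact h4
    have hsub : S ⊆ ⋃ x' ∈ Cl, Set.Icc (o + lam * ((x' : ℝ) / 3 ^ n)) (o + lam * ((x' : ℝ) / 3 ^ n) + lam / 3 ^ n) := by
      intro x hx
      obtain ⟨h1, h2, h3⟩ := hcl x hx
      exact Set.mem_iUnion₂.2 ⟨cell x, mem_filter.2 ⟨mem_range.2 h1, x, hx, rfl⟩, h2, h3⟩
    have hvol2 : MeasureTheory.volume S ≤ ENNReal.ofReal (Cl.card * (lam / 3 ^ n)) := by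
      refine (MeasureTheory.measure_mono hsub).trans ((MeasureTheory.measure_biUnion_finset_le _ _).trans ?_)
      have h1 : ∀ x' ∈ Cl, MeasureTheory.volume (Set.Icc (o + lam * ((x' : ℝ) / 3 ^ n)) (o + lam * ((x' : ℝ) / 3 ^ n) + lam / 3 ^ n)) =
          ENNReal.ofReal (lam / 3 ^ n) := by
        intro x' _
        rw [Real.volume_Icc, add_sub_cancel_left]
      rw [sum_congr rfl h1, sum_const, nsmul_eq_mul, ENNReal.ofReal_mul (Nat.cast_nonneg _), ENNReal.ofReal_natCast]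
    have h1 : ENNReal.ofReal v ≤ ENNReal.ofReal (Cl.card * (lam / 3 ^ n)) := hvol.trans hvol2
    have h2 : v ≤ Cl.card * (lam / 3 ^ n) := (ENNReal.ofReal_le_ofReal_iff (by positivity)).1 h1
    have h3 : v / lam * 3 ^ n ≤ Cl.card := by
      rw [div_mul_eq_mul_div, div_le_iff₀ hlam]
      have h4 : (Cl.card : ℝ) * (lam / 3 ^ n) = Cl.card * lam / 3 ^ n := by ring
      rw [h4, le_div_iff₀ hN] at h2
      exact h2
    exact h3.trans hWt
  · -- windows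
    intro j hj x r
    have h1 : ∑ z, c.a z * ind (c.ctr z = x ∧ |(c.R z : ℤ) - r| ≤ 3 ^ (n - j)) =
        ∑ z ∈ F, b z.1 z.2 * ind (z.1 = x ∧ |(((3 ^ n + z.2 : ℕ)) : ℤ) - r| ≤ 3 ^ (n - j)) :=
      sum_coe_sort F (fun z => b z.1 z.2 * ind (z.1 = x ∧ |(((3 ^ n + z.2 : ℕ)) : ℤ) - r| ≤ 3 ^ (n - j)))
    rw [h1]
    have hind : ∀ p : Prop, 0 ≤ ind p := by
      intro p
      unfold ind
      split_ifs <;> norm_num
    have h2 : ∑ z ∈ F, b z.1 z.2 * ind (z.1 = x ∧ |(((3 ^ n + z.2 : ℕ)) : ℤ) - r| ≤ 3 ^ (n - j)) ≤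
        ∑ z ∈ range (3 ^ n) ×ˢ range (3 ^ n), b z.1 z.2 * ind (z.1 = x ∧ |(((3 ^ n + z.2 : ℕ)) : ℤ) - r| ≤ 3 ^ (n - j)) :=
      sum_le_sum_of_subset_of_nonneg (filter_subset _ _) fun z _ _ => mul_nonneg (hb0 _ _) (hind _)
    refine h2.trans ?_
    rw [sum_product]
    have hkey : ∑ q ∈ range (3 ^ n), b x q * ind (|(q : ℤ) - ((r : ℤ) - 3 ^ n)| ≤ ((3 ^ (n - j) : ℕ) : ℤ)) ≤
        3 * (psi C₀ j / s₀) :=
      DI1_win (b x) (hb0 x) (3 ^ n) (3 ^ (n - j)) (by positivity) _ (div_pos (hpsi j) hs₀).le (hbc x j hj) _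
    have hrhs : 3 / s₀ * psi C₀ j = 3 * (psi C₀ j / s₀) := by ring
    rw [hrhs]
    have hzero : ∀ x' ∈ range (3 ^ n), x' ≠ x →
        ∑ q ∈ range (3 ^ n), b x' q * ind (x' = x ∧ |(((3 ^ n + q : ℕ)) : ℤ) - r| ≤ 3 ^ (n - j)) = 0 := by
      intro x' _ hne
      refine sum_eq_zero fun q _ => ?_
      have : ind (x' = x ∧ |(((3 ^ n + q : ℕ)) : ℤ) - r| ≤ 3 ^ (n - j)) = 0 := by
        unfold ind
        rw [if_neg (fun h => hne h.1)]
      rw [this, mul_zero]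
    by_cases hx : x ∈ range (3 ^ n)
    · rw [sum_eq_single_of_mem x hx hzero]
      refine le_trans (le_of_eq (sum_congr rfl fun q _ => ?_)) hkey
      have h5 : (x = x ∧ |(((3 ^ n + q : ℕ)) : ℤ) - r| ≤ 3 ^ (n - j)) ↔ (|(q : ℤ) - ((r : ℤ) - 3 ^ n)| ≤ ((3 ^ (n - j) : ℕ) : ℤ)) := by
        have h6 : (((3 ^ n + q : ℕ)) : ℤ) - r = (q : ℤ) - ((r : ℤ) - 3 ^ n) := by
          push_cast
          ring
        rw [h6]
        push_cast
        tauto
      rw [propext h5]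
    · rw [sum_eq_zero (fun x' hx' => hzero x' hx' (fun h => hx (h ▸ hx')))]
      exact mul_nonneg (by norm_num) (div_pos (hpsi j) hs₀).le
  · intro z
    obtain ⟨hz1, hz2, hz3⟩ := hFm z
    obtain ⟨-, -, x, hx, hxx, s, hs, hsq⟩ := hbp _ _ hz3
    obtain ⟨h1, h2, h3⟩ := hcl x hx
    refine ⟨x, hx, s, hs, ?_, ?_⟩
    · have h4 : ((c.ctr z : ℕ) : ℝ) = (cell x : ℝ) := by rw [hxx]
      rw [h4, abs_le]
      constructor
      · have : 0 ≤ lam / 3 ^ n := by positivity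
        linarith
      · linarith
    · have h4 : ((c.R z : ℕ) : ℝ) = 3 ^ n + (⌊(3 : ℝ) ^ n * s⌋₊ : ℝ) := by
        rw [hsq]
        change (((3 ^ n + z.1.2 : ℕ)) : ℝ) = _
        push_cast
        rfl
      have hs0 : 0 ≤ s := hs.1
      have h5 : (⌊(3 : ℝ) ^ n * s⌋₊ : ℝ) ≤ (3 : ℝ) ^ n * s := Nat.floor_le (by positivity)
      have h6 : (3 : ℝ) ^ n * s < ⌊(3 : ℝ) ^ n * s⌋₊ + 1 := Nat.lt_floor_add_one _
      rw [h4]
      have h7 : (1 + s) - (3 ^ n + (⌊(3 : ℝ) ^ n * s⌋₊ : ℝ)) / 3 ^ n = ((3 : ℝ) ^ n * s - ⌊(3 : ℝ) ^ n * s⌋₊) / 3 ^ n := by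
        field_simp
        ring
      rw [h7, abs_of_nonneg (div_nonneg (by linarith) hN.le)]
      exact div_le_div_of_nonneg_right (by linarith) hN.le

end

end Pool.Agent.ZR
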